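import Pool.Agent.PFC.StmtsB3

namespace Pool.Agent.PFC.B3.H41

open Module

noncomputable section

variable {F V E : Type} [Field F] [CommGroup V]

set_option linter.unusedSectionVars false

theorem Ia_zero (ℓ : ℕ) : Ia F V ℓ 0 = ⊥ := by
  unfold Ia
  rw [Submodule.span_eq_bot]
  rintro _ ⟨v, hv, rfl⟩
  rw [pow_zero, pow_one] at hv
  rw [hv, map_one, sub_self]

theorem Ia_mono (ℓ : ℕ) {a b : ℕ} (h : a ≤ b) : Ia F V ℓ a ≤ Ia F V ℓ b := by
  refine Submodule.span_mono ?_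
  rintro _ ⟨v, hv, rfl⟩
  refine ⟨v, ?_, rfl⟩
  obtain ⟨c, rfl⟩ := Nat.exists_eq_add_of_le h
  rw [pow_add, pow_mul, hv, one_pow]

theorem Ua_zero (ℓ : ℕ) : Ua F V ℓ 0 = Au2 F V := by
  unfold Ua
  rw [Ia_zero, bot_sup_eq]

theorem Ua_succ (ℓ a : ℕ) : Ua F V ℓ (a + 1) = Ia F V ℓ (a + 1) ⊔ Ua F V ℓ a := by
  have h1 : Ia F V ℓ a ≤ Ia F V ℓ (a + 1) := Ia_mono ℓ (Nat.le_succ a)
  have h2 : Ia F V ℓ (a + 1) ≤ Ua F V ℓ (a + 1) := le_sup_left
  have h3 : Au2 F V ≤ Ua F V ℓ (a + 1) := le_sup_right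
  have h4 : Au2 F V ≤ Ua F V ℓ a := le_sup_right
  apply le_antisymm
  · exact sup_le le_sup_left (h4.trans le_sup_right)
  · exact sup_le h2 (sup_le (h1.trans h2) h3)

theorem Ua_mono (ℓ a : ℕ) : Ua F V ℓ a ≤ Ua F V ℓ (a + 1) := by
  rw [Ua_succ]
  exact le_sup_right

theorem span_stable (T : MonoidAlgebra F V →ₗ[F] MonoidAlgebra F V)
    (S : Set (MonoidAlgebra F V)) (hS : ∀ z ∈ S, T z ∈ S) {z : MonoidAlgebra F V}
    (hz : z ∈ Submodule.span F S) : T z ∈ Submodule.span F S := by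
  have h : Submodule.span F S ≤ (Submodule.span F S).comap T := by
    rw [Submodule.span_le]
    intro x hx
    exact Submodule.subset_span (hS x hx)
  exact h hz

theorem ac_of [Group E] (φ : E →* MulAut V) (e : E) (v : V) :
    ac F φ e (MonoidAlgebra.of F V v) = MonoidAlgebra.of F V (φ e v) := by
  unfold ac
  simp

theorem Ia_stable [Group E] (φ : E →* MulAut V) (ℓ a : ℕ) (e : E) {z : MonoidAlgebra F V}
    (hz : z ∈ Ia F V ℓ a) : ac F φ e z ∈ Ia F V ℓ a := by
  refine span_stable (ac F φ e).toLinearMap _ ?_ hz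
  rintro _ ⟨v, hv, rfl⟩
  refine ⟨φ e v, ?_, ?_⟩
  · rw [← map_pow, hv, map_one]
  · show ac F φ e (MonoidAlgebra.of F V v - 1) = _
    rw [map_sub, ac_of, map_one]

theorem Ua_stable [Group E] (φ : E →* MulAut V) (ℓ a : ℕ) (e : E) {z : MonoidAlgebra F V}
    (hz : z ∈ Ua F V ℓ a) : ac F φ e z ∈ Ua F V ℓ a := by
  obtain ⟨x, hx, y, hy, rfl⟩ := Submodule.mem_sup.1 hz
  rw [map_add]
  refine Submodule.add_mem_sup (Ia_stable φ ℓ a e hx) ?_
  refine span_stable (ac F φ e).toLinearMap _ ?_ hy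
  rintro _ ⟨v, w, rfl⟩
  refine ⟨φ e v, φ e w, ?_⟩
  show ac F φ e ((MonoidAlgebra.of F V v - 1) * (MonoidAlgebra.of F V w - 1)) = _
  rw [map_mul, map_sub, map_sub, ac_of, ac_of, map_one]

theorem ac_one_mul [Group E] (φ : E →* MulAut V) (z : MonoidAlgebra F V) :
    ac F φ 1 z = z ∧ ∀ e e', ac F φ (e * e') z = ac F φ e (ac F φ e' z) := by
  induction z using MonoidAlgebra.induction_on with
  | of v =>
    refine ⟨?_, ?_⟩
    · rw [ac_of, map_one]
      rfl
    · intro e e'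
      rw [ac_of, ac_of, ac_of, map_mul]
      rfl
  | add x y hx hy =>
    refine ⟨by rw [map_add, hx.1, hy.1], ?_⟩
    intro e e'
    rw [map_add, hx.2, hy.2, map_add, map_add]
  | smul r x hx =>
    refine ⟨by rw [map_smul, hx.1], ?_⟩
    intro e e'
    rw [map_smul, hx.2, map_smul, map_smul]

def acT [Group E] (φ : E →* MulAut V) : E →* Module.End F (MonoidAlgebra F V) where
  toFun := fun e => (ac F φ e).toLinearMap
  map_one' := by
    apply LinearMap.ext
    intro z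
    exact (ac_one_mul φ z).1
  map_mul' := by
    intro e e'
    apply LinearMap.ext
    intro z
    exact (ac_one_mul φ z).2 e e'

theorem Ia_pow (ℓ : ℕ) [Fact ℓ.Prime] [CharP F ℓ] (a : ℕ) {z : MonoidAlgebra F V}
    (hz : z ∈ Ia F V ℓ a) : z ^ ℓ ^ a = 0 := by
  have hch : CharP (MonoidAlgebra F V) ℓ :=
    charP_of_injective_algebraMap (FaithfulSMul.algebraMap_injective F (MonoidAlgebra F V)) ℓ
  have hp : (ℓ ^ a) ≠ 0 := pow_ne_zero _ (Fact.out : ℓ.Prime).ne_zero
  unfold Ia at hz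
  induction hz using Submodule.span_induction with
  | mem x hx =>
    obtain ⟨v, hv, rfl⟩ := hx
    rw [sub_pow_char_pow, one_pow, ← map_pow, hv, map_one, sub_self]
  | zero => exact zero_pow hp
  | add x y _ _ hx hy => rw [add_pow_char_pow, hx, hy, add_zero]
  | smul c x _ hx => rw [smul_pow, hx, smul_zero]

/-- Abel summation -/
theorem abel_sum (u : ℕ → ℕ) (hu : ∀ a, u a ≤ u (a + 1)) (m : ℕ) :
    ∑ a ∈ Finset.range m, (a + 1) * (u (a + 1) - u a) = ∑ a ∈ Finset.range m, (u m - u a) := by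
  have hmono : Monotone u := monotone_nat_of_le_succ hu
  have h1 : ∀ m, ∑ a ∈ Finset.range m, (a + 1) * (u (a + 1) - u a) +
      ∑ a ∈ Finset.range m, u a = m * u m := by
    intro m
    induction m with
    | zero => simp
    | succ m ih =>
      rw [Finset.sum_range_succ, Finset.sum_range_succ]
      obtain ⟨d, hd⟩ := Nat.exists_eq_add_of_le (hu m)
      rw [hd, Nat.add_sub_cancel_left]
      calc _ = (∑ a ∈ Finset.range m, (a + 1) * (u (a + 1) - u a) +
              ∑ a ∈ Finset.range m, u a) + (m + 1) * d + u m := by ring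
        _ = _ := by rw [ih]; ring
  have h2 : ∑ a ∈ Finset.range m, (u m - u a) + ∑ a ∈ Finset.range m, u a = m * u m := by
    rw [← Finset.sum_add_distrib]
    rw [Finset.sum_congr rfl (g := fun _ => u m)]
    · rw [Finset.sum_const, Finset.card_range, smul_eq_mul]
    · intro a ha
      exact Nat.sub_add_cancel (hmono (Finset.mem_range.1 ha).le)
  have h3 := h1 m
  omega

theorem eig (hDec : DecStmt) (hLin : LinStmt) (hFrb : FrbStmt) (hSpn : SpnStmt)
    (hCnt : CntStmt) (hNky : NkyStmt) : EigStmt := by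
  intro ℓ _ F V E _ _ _ _ _ _ _ φ hVp hVn hE
  classical
  have hℓ : ℓ.Prime := Fact.out
  have hch : CharP (MonoidAlgebra F V) ℓ :=
    charP_of_injective_algebraMap (FaithfulSMul.algebraMap_injective F (MonoidAlgebra F V)) ℓ
  have : Fintype V := Fintype.ofFinite V
  have : Fintype (E →* Fˣ) := Fintype.ofFinite _
  -- the exponent
  obtain ⟨m, hm⟩ : ∃ m : ℕ, ∀ v : V, v ^ ℓ ^ m = 1 := by
    obtain ⟨m, hm⟩ := (IsPGroup.iff_card).1 hVp
    refine ⟨m, fun v => ?_⟩
    rw [← hm]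
    exact pow_card_eq_one'
  -- abbreviations
  let T : E →* Module.End F (MonoidAlgebra F V) := acT φ
  let G : (E →* Fˣ) → Submodule F (MonoidAlgebra F V) :=
    fun η => Eg F (fun e => (ac F φ e).toLinearMap) η
  let D : ℕ → (E →* Fˣ) → ℕ := fun a η => finrank F (Ua F V ℓ a ⊓ G η : Submodule F _)
  have hDfrb : ∀ a η, D a η = D a (η ^ ℓ) := fun a η => hFrb ℓ F V E φ a η
  have hDpow : ∀ a η j, D a η = D a (η ^ ℓ ^ j) := by
    intro a η j
    induction j with
    | zero =>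
      have h1 : η ^ ℓ ^ 0 = η := by
        apply MonoidHom.ext
        intro e
        rw [MonoidHom.pow_apply, pow_zero, pow_one]
      rw [h1]
    | succ j ih =>
      have h1 : (η ^ ℓ ^ j) ^ ℓ = η ^ ℓ ^ (j + 1) := by
        apply MonoidHom.ext
        intro e
        rw [MonoidHom.pow_apply, MonoidHom.pow_apply, MonoidHom.pow_apply, ← pow_mul, ← pow_succ]
      rw [ih, hDfrb, h1]
  have hDmono : ∀ a η, D a η ≤ D (a + 1) η := fun a η =>
    Submodule.finrank_mono (inf_le_inf_right _ (Ua_mono ℓ a))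
  let n : ℕ → (E →* Fˣ) → ℕ := fun a η => D (a + 1) η - D a η
  have hnpow : ∀ a η j, n a η = n a (η ^ ℓ ^ j) := by
    intro a η j
    simp only [n]
    rw [hDpow (a + 1) η j, hDpow a η j]
  have hdec := hDec F E (MonoidAlgebra F V) T hE
  have hUst : ∀ a, ∀ e, ∀ u ∈ Ua F V ℓ a, T e u ∈ Ua F V ℓ a :=
    fun a e u hu => Ua_stable φ ℓ a e hu
  have hIst : ∀ a, ∀ e, ∀ u ∈ Ia F V ℓ a, T e u ∈ Ia F V ℓ a :=
    fun a e u hu => Ia_stable φ ℓ a e hu
  -- the vectors
  have hx : ∀ a η, ∃ x : Fin (n a η) → MonoidAlgebra F V,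
      (∀ k, x k ∈ Ia F V ℓ (a + 1) ⊓ G η) ∧
      Submodule.span F (Set.range x) ⊔ (Ua F V ℓ a ⊓ G η) = Ua F V ℓ (a + 1) ⊓ G η := by
    intro a η
    refine hLin F (MonoidAlgebra F V) (Ia F V ℓ (a + 1) ⊓ G η) (Ua F V ℓ a ⊓ G η)
      (Ua F V ℓ (a + 1) ⊓ G η) (inf_le_inf_right _ (Ua_mono ℓ a)) ?_
    have h1 := hdec.2 (Ia F V ℓ (a + 1)) (Ua F V ℓ a) (hIst _) (hUst _) η
    rw [← Ua_succ] at h1
    exact h1
  choose x hxI hxs using hx
  let I : Type := Σ a : Fin m, Σ η : E →* Fˣ, Fin (n a η)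
  let A : I → ℕ := fun i => (i.1 : ℕ) + 1
  let X : I → MonoidAlgebra F V := fun i => x i.1 i.2.1 i.2.2
  have hXI : ∀ i : I, X i ∈ Ia F V ℓ (A i) := fun i => (Submodule.mem_inf.1 (hxI _ _ _)).1
  have hXG : ∀ i : I, X i ∈ G i.2.1 := fun i => (Submodule.mem_inf.1 (hxI _ _ _)).2
  have hX0 : ∀ i, X i ^ ℓ ^ A i = 0 := fun i => Ia_pow ℓ (A i) (hXI i)
  -- the permutation
  have hinj : ∀ j : ℕ, Function.Injective (fun η : E →* Fˣ => η ^ ℓ ^ j) := by
    intro j η η' h
    ext e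
    have h1 : (η ^ ℓ ^ j) e = (η' ^ ℓ ^ j) e := by
      simp only at h
      rw [h]
    rw [MonoidHom.pow_apply, MonoidHom.pow_apply] at h1
    have h2 := congrArg (Units.val) h1
    rw [Units.val_pow_eq_pow_val, Units.val_pow_eq_pow_val] at h2
    exact iterateFrobenius_inj F ℓ j h2
  let π : ℕ → Equiv.Perm (E →* Fˣ) := fun j =>
    Equiv.ofBijective _ (Finite.injective_iff_bijective.1 (hinj j))
  let p : Equiv.Perm I := Equiv.sigmaCongrRight fun a : Fin m =>
    Equiv.sigmaCongr (π ((a : ℕ) + 1)) fun η => finCongr (hnpow a η ((a : ℕ) + 1))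
  have hp : ∀ i : I, (p i).2.1 = i.2.1 ^ ℓ ^ A i := fun i => rfl
  -- spanning
  have hXspan : ∀ a, a ≤ m → Ua F V ℓ a ≤ Submodule.span F (Set.range X) ⊔ Au2 F V := by
    intro a
    induction a with
    | zero =>
      intro _
      rw [Ua_zero]
      exact le_sup_right
    | succ a ih =>
      intro ha
      have h1 := (hdec.1 (Ua F V ℓ (a + 1)) (hUst _)).2
      rw [h1]
      refine iSup_le ?_
      intro η
      have h2 : Ua F V ℓ (a + 1) ⊓ G η ≤ Submodule.span F (Set.range X) ⊔ Au2 F V := by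
        rw [← hxs a η]
        refine sup_le ?_ (inf_le_left.trans (ih (by omega)))
        refine le_trans (Submodule.span_mono ?_) le_sup_left
        rintro _ ⟨k, rfl⟩
        exact ⟨⟨⟨a, ha⟩, η, k⟩, rfl⟩
      exact h2
  have hAu : Ua F V ℓ m = Au F V := by
    apply le_antisymm (hSpn ℓ F V m).1
    refine le_trans ?_ (le_sup_left : Ia F V ℓ m ≤ Ua F V ℓ m)
    refine Submodule.span_mono ?_
    rintro _ ⟨v, rfl⟩
    exact ⟨v, hm v, rfl⟩
  have hspan : Submodule.span F (Set.range X) ⊔ Au2 F V = Au F V := by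
    apply le_antisymm
    · refine sup_le ?_ ?_
      · rw [Submodule.span_le]
        rintro _ ⟨i, rfl⟩
        exact (hSpn ℓ F V (A i)).1 ((le_sup_left : Ia F V ℓ (A i) ≤ Ua F V ℓ (A i)) (hXI i))
      · rw [← Ua_zero ℓ]
        exact (hSpn ℓ F V 0).1
    · rw [← hAu]
      exact hXspan m le_rfl
  have hqpos : ∀ i : I, 0 < ℓ ^ A i := fun i => pow_pos hℓ.pos _
  have htop := hNky ℓ F V I (fun i => ℓ ^ A i) X hVp hqpos hspan hX0
  -- counting
  let u : ℕ → ℕ := fun a => finrank F (Ua F V ℓ a)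
  have hu : ∀ a, u a ≤ u (a + 1) := fun a => Submodule.finrank_mono (Ua_mono ℓ a)
  have huD : ∀ a, u a = ∑ η, D a η := by
    intro a
    have h1 := (hdec.1 (Ua F V ℓ a) (hUst _)).1
    rw [finsum_eq_sum_of_fintype] at h1
    exact h1
  have hnsum : ∀ a, ∑ η, n a η = u (a + 1) - u a := by
    intro a
    rw [huD, huD, ← Finset.sum_tsub_distrib]
    intro η _
    exact hDmono a η
  have hsumA : ∑ i : I, A i = ∑ a ∈ Finset.range m, (u m - u a) := by
    rw [← abel_sum u hu m, Fintype.sum_sigma, ← Fin.sum_univ_eq_sum_range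
      (fun a => (a + 1) * (u (a + 1) - u a)) m]
    refine Finset.sum_congr rfl ?_
    intro a _
    rw [Fintype.sum_sigma, ← hnsum, Finset.mul_sum]
    refine Finset.sum_congr rfl ?_
    intro η _
    show ∑ _k : Fin (n a η), ((a : ℕ) + 1) = _
    rw [Finset.sum_const, Finset.card_univ, Fintype.card_fin, smul_eq_mul, mul_comm]
  have hcard : Fintype.card (∀ i : I, Fin (ℓ ^ A i)) = ℓ ^ ∑ i : I, A i := by
    rw [Fintype.card_pi]
    simp only [Fintype.card_fin]
    rw [Finset.prod_pow_eq_pow_sum]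
  have hle : Fintype.card (∀ i : I, Fin (ℓ ^ A i)) ≤ Nat.card V := by
    rw [hcard, hsumA, ← Finset.prod_pow_eq_pow_sum, ← hCnt ℓ V m hm]
    refine Finset.prod_le_prod' ?_
    intro a _
    have h1 := (hSpn ℓ F V a).2
    rw [← hAu] at h1
    exact h1
  have hfin : finrank F (MonoidAlgebra F V) = Nat.card V := by
    rw [Module.finrank_eq_card_basis (MonoidAlgebra.basis V F), Nat.card_eq_fintype_card]
  have hge : finrank F (MonoidAlgebra F V) ≤ Fintype.card (∀ i : I, Fin (ℓ ^ A i)) := by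
    have h1 := finrank_range_le_card (R := F)
      (fun α : ∀ i : I, Fin (ℓ ^ A i) => ∏ i, X i ^ (α i : ℕ))
    rw [Set.finrank, htop, finrank_top] at h1
    exact h1
  have hceq : Fintype.card (∀ i : I, Fin (ℓ ^ A i)) = finrank F (MonoidAlgebra F V) := by
    omega
  refine ⟨I, inferInstance, ?_, ⟨⟨A, fun i => Nat.succ_le_succ (Nat.zero_le _), p,
    fun i => i.2.1, ?_, X, hX0, ?_, basisOfTopLeSpanOfCardEqFinrank _ htop.ge hceq, ?_⟩⟩⟩
  · by_contra hemp
    rw [not_nonempty_iff] at hemp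
    have h1 : Fintype.card (∀ i : I, Fin (ℓ ^ A i)) = 1 := by
      rw [hcard, Finset.univ_eq_empty, Finset.sum_empty, pow_zero]
    rw [hceq, hfin] at h1
    have h2 := (Nat.card_eq_one_iff_unique.1 h1).1
    exact not_subsingleton V h2
  · intro i e
    rw [hp i, MonoidHom.pow_apply]
  · intro i e
    exact hXG i e
  · intro α
    rw [coe_basisOfTopLeSpanOfCardEqFinrank]

end

end Pool.Agent.PFC.B3.H41
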