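import Pool.Agent.PFC.StmtsB4a

namespace Pool.Agent.PFC.H41

open MulAction

/-- an invariant function sums to zero over a stable set without fixed points -/
theorem orbit_zero {ℓ : ℕ} [Fact ℓ.Prime] {F H Ω : Type} [Field F] [CharP F ℓ] [Group H]
    [Finite H] [Fintype Ω] [MulAction H Ω] (P : Subgroup H) (hP : IsPGroup ℓ P)
    (g : Ω → F) (hg : ∀ ω, ∀ h ∈ P, g (h • ω) = g ω) (T : Finset Ω)
    (hT : ∀ ω ∈ T, ∀ h ∈ P, h • ω ∈ T) (hT2 : ∀ ω ∈ T, ¬ ∀ h ∈ P, h • ω = ω) :
    ∑ ω ∈ T, g ω = 0 := by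
  classical
  induction hn : T.card using Nat.strong_induction_on generalizing T with
  | _ n ih =>
    rcases T.eq_empty_or_nonempty with rfl | ⟨ω, hω⟩
    · exact Finset.sum_empty
    · obtain ⟨S, hS, hinj, hsur⟩ := exTv P ω
      let O : Finset Ω := S.image (fun x => x • ω)
      have hO : O ⊆ T := by
        intro y hy
        obtain ⟨x, hx, rfl⟩ := Finset.mem_image.1 hy
        exact hT ω hω x (hS.1 x hx)
      have hOst : ∀ y ∈ O, ∀ h ∈ P, h • y ∈ O := by
        intro y hy h hh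
        obtain ⟨x, hx, rfl⟩ := Finset.mem_image.1 hy
        obtain ⟨z, hz, hz2⟩ := hsur (h * x) (P.mul_mem hh (hS.1 x hx))
        refine Finset.mem_image.2 ⟨z, hz, ?_⟩
        rw [hz2, mul_smul]
      have hωO : ω ∈ O := by
        obtain ⟨z, hz, hz2⟩ := hsur 1 P.one_mem
        refine Finset.mem_image.2 ⟨z, hz, ?_⟩
        rw [hz2, one_smul]
      have hrest : ∑ ω ∈ T \ O, g ω = 0 := by
        refine ih (T \ O).card ?_ (T \ O) ?_ ?_ rfl
        · rw [← hn]
          exact Finset.card_lt_card (Finset.sdiff_ssubset hO ⟨ω, hωO⟩)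
        · intro y hy h hh
          rw [Finset.mem_sdiff] at hy ⊢
          refine ⟨hT y hy.1 h hh, fun hc => hy.2 ?_⟩
          have := hOst _ hc h⁻¹ (P.inv_mem hh)
          rwa [inv_smul_smul] at this
        · intro y hy
          exact hT2 y (Finset.mem_sdiff.1 hy).1
      have horb : ∑ ω ∈ O, g ω = 0 := by
        have h1 : ∑ y ∈ O, g y = ∑ x ∈ S, g ω := by
          rw [Finset.sum_image (by
            intro x hx y hy hxy
            exact hinj x hx y hy hxy)]
          refine Finset.sum_congr rfl ?_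
          intro x hx
          exact hg ω x (hS.1 x hx)
        rw [h1, Finset.sum_const]
        have hlt : P ⊓ stabilizer H ω < P := by
          refine lt_of_le_of_ne inf_le_left ?_
          intro heq
          apply hT2 ω hω
          intro h hh
          have : h ∈ P ⊓ stabilizer H ω := by
            rw [heq]
            exact hh
          exact mem_stabilizer_iff.1 (Subgroup.mem_inf.1 this).2
        have hdvd : ℓ ∣ S.card := by
          have hc := card_tv (P ⊓ stabilizer H ω) P hlt.le S hS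
          obtain ⟨k, hk⟩ := (IsPGroup.iff_card).1 hP
          have hdiv : S.card ∣ ℓ ^ k := ⟨_, by rw [← hk]; exact hc.symm⟩
          obtain ⟨j, -, hj⟩ := (Nat.dvd_prime_pow (Fact.out : ℓ.Prime)).1 hdiv
          rcases Nat.eq_zero_or_pos j with h0 | h0
          · exfalso
            rw [h0, pow_zero] at hj
            rw [hj, one_mul] at hc
            exact hlt.ne (Subgroup.eq_of_le_of_card_ge hlt.le hc.ge)
          · rw [hj]
            exact dvd_pow_self ℓ h0.ne'
        obtain ⟨d, hd⟩ := hdvd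
        rw [hd, mul_smul, nsmul_eq_mul, CharP.cast_eq_zero, zero_mul]
      rw [← Finset.sum_sdiff hO, hrest, horb, add_zero]

theorem sum_fp {ℓ : ℕ} [Fact ℓ.Prime] {F H Ω : Type} [Field F] [CharP F ℓ] [Group H]
    [Finite H] [Fintype Ω] [MulAction H Ω] (P : Subgroup H) (hP : IsPGroup ℓ P)
    (g : Ω → F) (hg : ∀ ω, ∀ h ∈ P, g (h • ω) = g ω) :
    ∑ ω, g ω = ∑ ω ∈ fp P Ω, g ω := by
  classical
  have h1 := orbit_zero (ℓ := ℓ) P hP g hg (Finset.univ \ fp P Ω) ?_ ?_
  · have h2 := Finset.sum_sdiff (Finset.subset_univ (fp P Ω)) (f := g)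
    rw [h1, zero_add] at h2
    exact h2.symm
  · intro ω hω h hh
    rw [Finset.mem_sdiff] at hω ⊢
    refine ⟨Finset.mem_univ _, fun hc => hω.2 ?_⟩
    rw [mem_fp] at hc ⊢
    intro k hk
    have h4 := hc (h * k * h⁻¹) (P.mul_mem (P.mul_mem hh hk) (P.inv_mem hh))
    rw [mul_smul, mul_smul, inv_smul_smul] at h4
    exact smul_left_cancel h h4
  · intro ω hω hc
    exact (Finset.mem_sdiff.1 hω).2 ((mem_fp P Ω ω).2 hc)

/-- the dimension is the trace of a decomposition of the identity -/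
theorem dim_frame {F V ι : Type} [Field F] [AddCommGroup V] [Module F V] (T : Finset ι)
    (v : ι → V) (f : ι → (V →ₗ[F] F)) (h : ∀ x, ∑ i ∈ T, f i x • v i = x) :
    (Module.finrank F V : F) = ∑ i ∈ T, f i (v i) := by
  classical
  have hfd : Module.Finite F V := by
    refine ⟨⟨T.image v, ?_⟩⟩
    rw [eq_top_iff]
    intro x _
    rw [← h x]
    refine Submodule.sum_mem _ ?_
    intro i hi
    refine Submodule.smul_mem _ _ (Submodule.subset_span ?_)
    rw [Finset.coe_image]
    exact ⟨i, hi, rfl⟩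
  have h1 : (LinearMap.id : V →ₗ[F] V) = ∑ i ∈ T, (f i).smulRight (v i) := by
    ext x
    rw [LinearMap.sum_apply]
    exact (h x).symm
  rw [← LinearMap.trace_id F V, h1, map_sum]
  refine Finset.sum_congr rfl ?_
  intro i _
  exact LinearMap.trace_smulRight (f i) (v i)

theorem dim : DimStmt := by
  intro ℓ _ F H M N _ _ _ _ _ _ _ _ ρ X hPS P hP π hπ
  classical
  obtain ⟨Ω, iF, iA, b, c, hfr, -⟩ := hPS
  have hinv : ∀ ω, ∀ h ∈ P, c (h • ω) (b (h • ω)) = c ω (b ω) := by
    intro ω h _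
    rw [hfr.1, hfr.2.1]
  have hM : (Module.finrank F M : F) = ∑ ω ∈ fp P Ω, c ω (b ω) := by
    rw [dim_frame (Finset.univ : Finset Ω) b c hfr.2.2]
    exact sum_fp P hP (fun ω => c ω (b ω)) hinv
  choose s hs using hπ.2
  have hdiff : ∀ ω, (∀ h ∈ P, h • ω = ω) → ∀ m ∈ Fx ρ P, ∀ m' ∈ Fx ρ P, π m = π m' →
      c ω m = c ω m' := by
    intro ω hω m hm m' hm' he
    have h1 : m - m' ∈ BK ρ P := by
      rw [← hπ.1 _ (Submodule.sub_mem _ hm hm'), map_sub, he, sub_self]
    have h2 := frame_BK hfr P hP h1 ω hω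
    rw [map_sub] at h2
    exact sub_eq_zero.1 h2
  let d : Ω → (N →ₗ[F] F) := fun ω => if hω : ∀ h ∈ P, h • ω = ω then
    { toFun := fun n => c ω (s n)
      map_add' := by
        intro x y
        rw [← map_add]
        apply hdiff ω hω _ (hs _).1 _ (Submodule.add_mem _ (hs _).1 (hs _).1)
        rw [map_add, (hs _).2, (hs _).2, (hs _).2]
      map_smul' := by
        intro r x
        rw [RingHom.id_apply, ← map_smul]
        apply hdiff ω hω _ (hs _).1 _ (Submodule.smul_mem _ _ (hs _).1)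
        rw [map_smul, (hs _).2, (hs _).2] } else 0
  have hd : ∀ ω ∈ fp P Ω, ∀ m ∈ Fx ρ P, d ω (π m) = c ω m := by
    intro ω hω m hm
    have hω' := (mem_fp P Ω ω).1 hω
    have h1 : d ω (π m) = c ω (s (π m)) := by
      simp only [d]
      rw [dif_pos hω']
      rfl
    rw [h1]
    exact hdiff ω hω' _ (hs _).1 _ hm (hs _).2
  have hb : ∀ ω ∈ fp P Ω, b ω ∈ Fx ρ P := by
    intro ω hω h hh
    rw [← hfr.1, (mem_fp P Ω ω).1 hω h hh]
  have hN : (Module.finrank F N : F) = ∑ ω ∈ fp P Ω, d ω (π (b ω)) := by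
    refine dim_frame (fp P Ω) (fun ω => π (b ω)) d ?_
    intro n
    obtain ⟨hm, hn⟩ := hs n
    have h1 := frame_sub hfr P hm
    have h2 := BK_le_Fx ρ P h1
    have h3 := (hπ.1 _ h2).2 h1
    rw [map_sub, map_sum, sub_eq_zero, hn] at h3
    refine Eq.trans (Finset.sum_congr rfl ?_) h3.symm
    intro ω hω
    rw [map_smul, ← hd ω hω _ hm, hn]
  rw [hM, hN]
  refine Finset.sum_congr rfl ?_
  intro ω hω
  exact (hd ω hω _ (hb ω hω)).symm

end Pool.Agent.PFC.H41
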