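import Pool.Agent.PFC.StmtsB4a

namespace Pool.Agent.PFC.H41

theorem psm : PsmStmt := by
  intro F H M N _ _ _ _ _ _ ρ σ X i p hi hp hpi hPS
  obtain ⟨Ω, iF, iA, b, c, hfr, hX⟩ := hPS
  refine ⟨Ω, iF, iA, fun ω => p (b ω), fun ω => (c ω).comp i, ⟨?_, ?_, ?_⟩, hX⟩
  · intro h ω
    show p (b (h • ω)) = σ h (p (b ω))
    rw [hfr.1, hp]
  · intro h ω n
    show c (h • ω) (i (σ h n)) = c ω (i n)
    rw [hi, hfr.2.1]
  · intro n
    have h1 := congrArg p (hfr.2.2 (i n))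
    rw [hpi, map_sum] at h1
    refine Eq.trans (Finset.sum_congr rfl ?_) h1
    intro ω _
    show c ω (i n) • p (b ω) = p (c ω (i n) • b ω)
    rw [map_smul]

end Pool.Agent.PFC.H41
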