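import Pool.Agent.PFC.StmtsB5a

namespace Pool.Agent.PFC.B5a.H41

open Module

theorem fdb : FdbStmt := by
  intro F B _ _ _ _ lam hs hn
  classical
  let Bf : LinearMap.BilinForm F B := (LinearMap.mul F B).compr₂ lam
  have hBf : ∀ x y, Bf x y = lam (x * y) := fun _ _ => rfl
  have hB : Bf.Nondegenerate := by
    constructor
    · intro x hx
      exact hn x hx
    · intro x hx
      refine hn x ?_
      intro y
      rw [hs]
      exact hx y
  let b := Module.finBasis F B
  let b' := Bf.dualBasis hB b
  have hd : ∀ i j, lam (b' i * b j) = if j = i then 1 else 0 :=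
    fun i j => LinearMap.BilinForm.apply_dualBasis_left hB b i j
  refine ⟨Module.finrank F B, b, b', ?_, ?_⟩
  · intro x
    have h1 : x = ∑ j, b.repr x j • b j := (b.sum_repr x).symm
    have h2 : ∀ k, lam (b' k * x) = b.repr x k := by
      intro k
      conv_lhs => rw [h1]
      rw [Finset.mul_sum, map_sum]
      rw [Finset.sum_eq_single k]
      · rw [mul_smul_comm, map_smul, hd, if_pos rfl, smul_eq_mul, mul_one]
      · intro j _ hj
        rw [mul_smul_comm, map_smul, hd, if_neg hj, smul_zero]
      · intro h
        exact absurd (Finset.mem_univ _) h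
    rw [Finset.sum_congr rfl (fun k _ => by rw [h2 k])]
    exact b.sum_repr x
  · intro x
    have h1 : x = ∑ j, b'.repr x j • b' j := (b'.sum_repr x).symm
    have h2 : ∀ k, lam (x * b k) = b'.repr x k := by
      intro k
      conv_lhs => rw [h1]
      rw [Finset.sum_mul, map_sum]
      rw [Finset.sum_eq_single k]
      · rw [smul_mul_assoc, map_smul, hd, if_pos rfl, smul_eq_mul, mul_one]
      · intro j _ hj
        rw [smul_mul_assoc, map_smul, hd, if_neg (Ne.symm hj), smul_zero]
      · intro h
        exact absurd (Finset.mem_univ _) h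
    rw [Finset.sum_congr rfl (fun k _ => by rw [h2 k])]
    exact b'.sum_repr x

end Pool.Agent.PFC.B5a.H41
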