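import Pool.Agent.PFC.StmtsB3

namespace Pool.Agent.PFC.B3.H41

open Module

theorem rk_step {L M : Type} [Field L] [AddCommGroup M] [Module L M] [Module.Finite L M]
    (N : M →ₗ[L] M) (i : ℕ) :
    finrank L (LinearMap.range (N ^ i)) ≤
      finrank L (LinearMap.range (N ^ (i + 1))) + finrank L (M ⧸ LinearMap.range N) := by
  obtain ⟨C, hC⟩ := Submodule.exists_isCompl (LinearMap.range N)
  have h1 : LinearMap.range (N ^ i) ≤ LinearMap.range (N ^ (i + 1)) ⊔ C.map (N ^ i) := by
    rintro _ ⟨m, rfl⟩
    have hm : m ∈ LinearMap.range N ⊔ C := by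
      rw [hC.sup_eq_top]
      exact Submodule.mem_top
    obtain ⟨_, ⟨y, rfl⟩, c, hc, rfl⟩ := Submodule.mem_sup.1 hm
    rw [map_add]
    refine Submodule.add_mem_sup ?_ (Submodule.mem_map_of_mem hc)
    refine ⟨y, ?_⟩
    rw [pow_succ]
    rfl
  calc finrank L (LinearMap.range (N ^ i))
      ≤ finrank L (LinearMap.range (N ^ (i + 1)) ⊔ C.map (N ^ i) : Submodule L M) :=
        Submodule.finrank_mono h1
    _ ≤ finrank L (LinearMap.range (N ^ (i + 1))) + finrank L (C.map (N ^ i)) :=
        Submodule.finrank_add_le_finrank_add_finrank _ _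
    _ ≤ _ := by
        have h2 := Submodule.finrank_map_le (N ^ i) C
        have h3 := (Submodule.quotientEquivOfIsCompl _ _ hC).finrank_eq
        omega

theorem anl : AnlStmt := by
  intro L M _ _ _ _ N Q hQ hdim i hi m hm
  set r := finrank L (M ⧸ LinearMap.range N) with hr
  have hup : ∀ j, j ≤ Q → finrank L (LinearMap.range (N ^ (Q - j))) ≤ j * r := by
    intro j
    induction j with
    | zero =>
      intro _
      rw [Nat.sub_zero, hQ, LinearMap.range_zero, finrank_bot]
      exact Nat.zero_le _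
    | succ j ih =>
      intro hj
      have h1 := rk_step N (Q - (j + 1))
      have h2 : Q - (j + 1) + 1 = Q - j := by omega
      rw [h2] at h1
      have h3 := ih (by omega)
      rw [← hr] at h1
      calc _ ≤ _ := h1
        _ ≤ j * r + r := by omega
        _ = (j + 1) * r := by ring
  have hlow : ∀ j, finrank L M ≤ finrank L (LinearMap.range (N ^ j)) + j * r := by
    intro j
    induction j with
    | zero =>
      rw [pow_zero, Module.End.one_eq_id, LinearMap.range_id, finrank_top]
      omega
    | succ j ih =>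
      have h1 := rk_step N j
      rw [← hr] at h1
      calc _ ≤ _ := ih
        _ ≤ finrank L (LinearMap.range (N ^ (j + 1))) + r + j * r := by omega
        _ = _ := by ring
  have hle : LinearMap.range (N ^ (Q - i)) ≤ LinearMap.ker (N ^ i) := by
    rintro _ ⟨y, rfl⟩
    rw [LinearMap.mem_ker]
    have h1 : (N ^ i) ((N ^ (Q - i)) y) = (N ^ i * N ^ (Q - i)) y := rfl
    rw [h1, ← pow_add, Nat.add_sub_cancel' hi, hQ]
    rfl
  have hrn := LinearMap.finrank_range_add_finrank_ker (N ^ i)
  have h4 := hlow (Q - i)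
  have h5 := hup i hi
  have h6 := hlow i
  have h7 : finrank L (LinearMap.range (N ^ i)) ≤ (Q - i) * r := by
    have h8 := hup (Q - i) (Nat.sub_le _ _)
    rwa [Nat.sub_sub_self hi] at h8
  have h9 : Q * r = (Q - i) * r + i * r := by
    rw [← Nat.add_mul, Nat.sub_add_cancel hi]
  have heq : LinearMap.range (N ^ (Q - i)) = LinearMap.ker (N ^ i) := by
    apply Submodule.eq_of_le_of_finrank_le hle
    omega
  have hmem : m ∈ LinearMap.ker (N ^ i) := hm
  rw [← heq] at hmem
  obtain ⟨m', hm'⟩ := hmem
  exact ⟨m', hm'.symm⟩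

end Pool.Agent.PFC.B3.H41
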