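import Pool.Agent.PFC.StmtsB3

namespace Pool.Agent.PFC.B3.H41

open Module

section

variable {F V E : Type} [Field F] [CommGroup V] [Group E]

theorem rho_smul (τ : F ≃+* F) (c : F) (z : MonoidAlgebra F V) :
    MonoidAlgebra.mapRingEquiv V τ (c • z) = τ c • MonoidAlgebra.mapRingEquiv V τ z := by
  ext v
  simp

theorem rho_of (τ : F ≃+* F) (v : V) :
    MonoidAlgebra.mapRingEquiv V τ (MonoidAlgebra.of F V v) = MonoidAlgebra.of F V v := by
  rw [MonoidAlgebra.of_apply, MonoidAlgebra.mapRingEquiv_single, map_one]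

theorem rho_span (τ : F ≃+* F) (S : Set (MonoidAlgebra F V))
    (hS : ∀ z ∈ S, MonoidAlgebra.mapRingEquiv V τ z ∈ S) {z : MonoidAlgebra F V}
    (hz : z ∈ Submodule.span F S) :
    MonoidAlgebra.mapRingEquiv V τ z ∈ Submodule.span F S := by
  induction hz using Submodule.span_induction with
  | mem x hx => exact Submodule.subset_span (hS x hx)
  | zero =>
    rw [map_zero]
    exact Submodule.zero_mem _
  | add x y _ _ hx hy =>
    rw [map_add]
    exact Submodule.add_mem _ hx hy
  | smul a x _ hx =>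
    rw [rho_smul]
    exact Submodule.smul_mem _ _ hx

theorem rho_Ua (τ : F ≃+* F) (ℓ a : ℕ) {z : MonoidAlgebra F V} (hz : z ∈ Ua F V ℓ a) :
    MonoidAlgebra.mapRingEquiv V τ z ∈ Ua F V ℓ a := by
  obtain ⟨x, hx, y, hy, rfl⟩ := Submodule.mem_sup.1 hz
  rw [map_add]
  refine Submodule.add_mem_sup (rho_span τ _ ?_ hx) (rho_span τ _ ?_ hy)
  · rintro _ ⟨v, hv, rfl⟩
    refine ⟨v, hv, ?_⟩
    rw [map_sub, rho_of, map_one]
  · rintro _ ⟨v, w, rfl⟩
    refine ⟨v, w, ?_⟩
    rw [map_mul, map_sub, map_sub, rho_of, rho_of, map_one]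

theorem rho_ac (τ : F ≃+* F) (φ : E →* MulAut V) (e : E) (z : MonoidAlgebra F V) :
    MonoidAlgebra.mapRingEquiv V τ (ac F φ e z) = ac F φ e (MonoidAlgebra.mapRingEquiv V τ z) := by
  induction z using MonoidAlgebra.induction_on with
  | of v =>
    unfold ac
    simp
  | add x y hx hy => rw [map_add, map_add, map_add, map_add, hx, hy]
  | smul r x hx => rw [map_smul, rho_smul, rho_smul, map_smul, hx]

end

theorem frb : FrbStmt := by
  intro ℓ _ F V E _ _ _ _ _ _ φ a η
  have : PerfectRing F ℓ := inferInstance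
  let τ : F ≃+* F := frobeniusEquiv F ℓ
  let R := MonoidAlgebra.mapRingEquiv V τ
  have hτ : ∀ c : F, τ c = c ^ ℓ := fun c => frobeniusEquiv_def F ℓ c
  have hEg : ∀ z : MonoidAlgebra F V, z ∈ Eg F (fun e => (ac F φ e).toLinearMap) η ↔
      R z ∈ Eg F (fun e => (ac F φ e).toLinearMap) (η ^ ℓ) := by
    intro z
    constructor
    · intro h e
      have h1 : ac F φ e z = (η e : F) • z := h e
      show ac F φ e (R z) = (((η ^ ℓ) e : Fˣ) : F) • R z
      rw [← rho_ac, h1, rho_smul, hτ]
      rfl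
    · intro h e
      have h1 : ac F φ e (R z) = (((η ^ ℓ) e : Fˣ) : F) • R z := h e
      show ac F φ e z = (η e : F) • z
      apply R.injective
      rw [rho_smul, hτ]
      rw [← rho_ac] at h1
      exact h1
  have hUa : ∀ z : MonoidAlgebra F V, z ∈ Ua F V ℓ a ↔ R z ∈ Ua F V ℓ a := by
    intro z
    constructor
    · intro h
      exact rho_Ua τ ℓ a h
    · intro h
      have h1 := rho_Ua τ.symm ℓ a h
      rw [← MonoidAlgebra.symm_mapRingEquiv] at h1
      have h2 : (MonoidAlgebra.mapRingEquiv V τ).symm (R z) = z := RingEquiv.symm_apply_apply _ _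
      rwa [h2] at h1
  let S1 : Submodule F (MonoidAlgebra F V) :=
    Ua F V ℓ a ⊓ Eg F (fun e => (ac F φ e).toLinearMap) η
  let S2 : Submodule F (MonoidAlgebra F V) :=
    Ua F V ℓ a ⊓ Eg F (fun e => (ac F φ e).toLinearMap) (η ^ ℓ)
  have hS : ∀ z, z ∈ S1 ↔ R z ∈ S2 := by
    intro z
    rw [Submodule.mem_inf, Submodule.mem_inf, hEg z, hUa z]
  let j : S1 ≃+ S2 :=
    { toFun := fun z => ⟨R z, (hS z).1 z.2⟩
      invFun := fun z => ⟨R.symm z, (hS _).2 (by rw [R.apply_symm_apply]; exact z.2)⟩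
      left_inv := by
        intro z
        exact Subtype.ext (R.symm_apply_apply _)
      right_inv := by
        intro z
        exact Subtype.ext (R.apply_symm_apply _)
      map_add' := by
        intro x y
        exact Subtype.ext (map_add R _ _) }
  have h := rank_eq_of_equiv_equiv (R := F) (R' := F) (τ : F → F) j τ.bijective (by
    intro r m
    apply Subtype.ext
    exact rho_smul τ r (m : MonoidAlgebra F V))
  show Module.finrank F S1 = Module.finrank F S2
  unfold Module.finrank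
  rw [h]

end Pool.Agent.PFC.B3.H41
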