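import Pool.Agent.Helper41_PFC.HGX

namespace Pool.Agent.PFC.H41

theorem hgr : HgrStmt := by
  intro F H K M _ _ _ _ _ _ _ ρ φ hφ hH
  classical
  obtain ⟨a, ha⟩ := hH
  refine ⟨∑ q : H ⧸ φ.range, (ρ q.out⁻¹).comp (a.comp (ρ q.out)), ?_⟩
  intro m
  have h1 := ha m
  have h2 : ∑ h : H, ρ h (a (ρ h⁻¹ m)) = ∑ h : H, ρ h⁻¹ (a (ρ h m)) := by
    refine Fintype.sum_equiv (Equiv.inv H) _ _ ?_
    intro h
    simp
  rw [h2, coset_sum φ.range] at h1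
  refine Eq.trans ?_ h1
  have h3 : ∀ k : K, (rst ρ φ) k ((∑ q : H ⧸ φ.range, (ρ q.out⁻¹).comp (a.comp (ρ q.out)))
      ((rst ρ φ) k⁻¹ m)) = ∑ q : H ⧸ φ.range, ρ (φ k) (ρ q.out⁻¹ (a (ρ q.out (ρ (φ k)⁻¹ m)))) := by
    intro k
    show ρ (φ k) ((∑ q : H ⧸ φ.range, (ρ q.out⁻¹).comp (a.comp (ρ q.out)))
      (ρ (φ k⁻¹) m)) = _
    rw [map_inv φ k, LinearMap.sum_apply, map_sum]
    rfl
  rw [Finset.sum_congr rfl (fun k _ => h3 k), Finset.sum_comm]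
  refine Finset.sum_congr rfl ?_
  intro q _
  rw [range_sum φ hφ (fun s => ρ (q.out * s)⁻¹ (a (ρ (q.out * s) m)))]
  refine Fintype.sum_equiv (Equiv.inv K) _ _ ?_
  intro k
  simp only [Equiv.inv_apply, map_inv, mul_inv_rev, inv_inv, map_mul, Module.End.mul_apply]

end Pool.Agent.PFC.H41
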