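import Pool.Agent.PFC.StmtsB4a

namespace Pool.Agent.PFC.H41

theorem out_mul_bij {H : Type} [Group H] (S : Subgroup H) :
    Function.Bijective (fun z : (H ⧸ S) × S => z.1.out * (z.2 : H)) := by
  constructor
  · rintro ⟨q, s⟩ ⟨q', s'⟩ h
    simp only at h
    have h1 : q = q' := by
      have e1 : (QuotientGroup.mk (q.out * (s : H)) : H ⧸ S) = q := by
        rw [QuotientGroup.mk_mul_of_mem _ s.2]
        exact Quotient.out_eq' q
      have e2 : (QuotientGroup.mk (q'.out * (s' : H)) : H ⧸ S) = q' := by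
        rw [QuotientGroup.mk_mul_of_mem _ s'.2]
        exact Quotient.out_eq' q'
      rw [← e1, ← e2, h]
    subst h1
    have h2 : (s : H) = s' := mul_left_cancel h
    have h3 : s = s' := Subtype.ext h2
    rw [h3]
  · intro h
    have h1 : (QuotientGroup.mk h : H ⧸ S).out⁻¹ * h ∈ S := by
      rw [← QuotientGroup.eq]
      exact Quotient.out_eq' _
    refine ⟨(QuotientGroup.mk h, ⟨_, h1⟩), ?_⟩
    simp

theorem coset_sum {H A : Type} [Group H] [Fintype H] [AddCommMonoid A] (S : Subgroup H)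
    [Fintype (H ⧸ S)] [Fintype S] (f : H → A) :
    ∑ h, f h = ∑ q : H ⧸ S, ∑ s : S, f (q.out * (s : H)) := by
  have h1 := Fintype.sum_bijective (fun z : (H ⧸ S) × S => z.1.out * (z.2 : H))
    (out_mul_bij S) (fun z => f (z.1.out * (z.2 : H))) f (fun _ => rfl)
  rw [← h1, Fintype.sum_prod_type]

theorem range_sum {H K A : Type} [Group H] [Group K] [Fintype K] [AddCommMonoid A]
    (φ : K →* H) (hφ : Function.Injective φ) [Fintype φ.range] (f : H → A) :
    ∑ s : φ.range, f (s : H) = ∑ k : K, f (φ k) := by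
  symm
  refine Fintype.sum_bijective (fun k : K => (⟨φ k, ⟨k, rfl⟩⟩ : φ.range)) ⟨?_, ?_⟩ _ _
    (fun _ => rfl)
  · intro x y hxy
    exact hφ (congrArg Subtype.val hxy)
  · rintro ⟨_, ⟨k, rfl⟩⟩
    exact ⟨k, rfl⟩

theorem hgx : HgxStmt := by
  intro ℓ _ F H K M _ _ _ _ _ _ _ _ ρ φ hφ hind hK
  classical
  obtain ⟨a, ha⟩ := hK
  have hc : (φ.range.index : F) ≠ 0 := by
    intro h0
    exact hind ((CharP.cast_eq_zero_iff F ℓ _).1 h0)
  refine ⟨(φ.range.index : F)⁻¹ • a, ?_⟩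
  intro m
  rw [coset_sum φ.range]
  have key : ∀ q : H ⧸ φ.range, ∑ s : φ.range,
      ρ (q.out * (s : H)) (((φ.range.index : F)⁻¹ • a) (ρ (q.out * (s : H))⁻¹ m)) =
        (φ.range.index : F)⁻¹ • m := by
    intro q
    have h1 : ∀ s : φ.range,
        ρ (q.out * (s : H)) (((φ.range.index : F)⁻¹ • a) (ρ (q.out * (s : H))⁻¹ m)) =
        (φ.range.index : F)⁻¹ • ρ q.out (ρ (s : H) (a (ρ (s : H)⁻¹ (ρ q.out⁻¹ m)))) := by
      intro s
      rw [mul_inv_rev, map_mul, map_mul]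
      simp only [Module.End.mul_apply, LinearMap.smul_apply, map_smul]
    rw [Finset.sum_congr rfl (fun s _ => h1 s), ← Finset.smul_sum, ← map_sum]
    have h2 := range_sum φ hφ (fun h => ρ h (a (ρ h⁻¹ (ρ q.out⁻¹ m))))
    have h3 := ha (ρ q.out⁻¹ m)
    have h4 : ∑ s : φ.range, ρ (s : H) (a (ρ (s : H)⁻¹ (ρ q.out⁻¹ m))) = ρ q.out⁻¹ m := by
      rw [h2]
      refine Eq.trans (Finset.sum_congr rfl ?_) h3
      intro k _
      show ρ (φ k) (a (ρ (φ k)⁻¹ (ρ q.out⁻¹ m))) = ρ (φ k) (a (ρ (φ k⁻¹) (ρ q.out⁻¹ m)))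
      rw [map_inv φ k]
    rw [h4]
    congr 1
    have h5 : ρ q.out (ρ q.out⁻¹ m) = (ρ q.out * ρ q.out⁻¹) m := rfl
    rw [h5, ← map_mul, mul_inv_cancel, map_one]
    rfl
  rw [Finset.sum_congr rfl (fun q _ => key q), Finset.sum_const, Finset.card_univ,
    ← Nat.card_eq_fintype_card]
  have h6 : Nat.card (H ⧸ φ.range) = φ.range.index := rfl
  rw [h6, ← Nat.cast_smul_eq_nsmul F, smul_smul, mul_inv_cancel₀ hc, one_smul]

end Pool.Agent.PFC.H41
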