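import Pool.Agent.PFC.StmtsB5c

namespace Pool.Agent.PFC.B5c.H41

noncomputable section

theorem pow_FV {ℓ : ℕ} [Fact ℓ.Prime] {F V : Type} [Field F] [CharP F ℓ] [CommGroup V]
    (m : ℕ) (hm : ∀ v : V, v ^ ℓ ^ m = 1) (z : MonoidAlgebra F V) :
    z ^ ℓ ^ m = algebraMap F (MonoidAlgebra F V)
      ((MonoidAlgebra.lift F F V (1 : V →* F) z) ^ ℓ ^ m) := by
  have hch : CharP (MonoidAlgebra F V) ℓ :=
    charP_of_injective_algebraMap (FaithfulSMul.algebraMap_injective F (MonoidAlgebra F V)) ℓ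
  induction z using MonoidAlgebra.induction_on with
  | of v =>
    rw [← map_pow, hm, MonoidAlgebra.lift_of]
    simp
  | add x y hx hy =>
    rw [add_pow_char_pow, map_add, add_pow_char_pow, map_add, hx, hy]
  | smul r x hx =>
    rw [smul_pow, map_smul, smul_eq_mul, mul_pow, map_mul, hx, Algebra.smul_def]

theorem idem_FV {ℓ : ℕ} [Fact ℓ.Prime] {F V : Type} [Field F] [CharP F ℓ] [CommGroup V]
    [Finite V] (hV : IsPGroup ℓ V) (f : MonoidAlgebra F V) (hf : f * f = f) : f = 0 ∨ f = 1 := by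
  have hℓ : ℓ.Prime := Fact.out
  obtain ⟨m, hm⟩ : ∃ m : ℕ, ∀ v : V, v ^ ℓ ^ m = 1 := by
    obtain ⟨m, hm⟩ := (IsPGroup.iff_card).1 hV
    refine ⟨m, fun v => ?_⟩
    rw [← hm]
    exact pow_card_eq_one'
  have hpos : ℓ ^ m ≠ 0 := pow_ne_zero _ hℓ.ne_zero
  have key : ∀ g : MonoidAlgebra F V, g * g = g →
      MonoidAlgebra.lift F F V (1 : V →* F) g = 0 → g = 0 := by
    intro g hg h0
    have h1 := pow_FV m hm g
    obtain ⟨k, hk⟩ := Nat.exists_eq_succ_of_ne_zero hpos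
    have hi : IsIdempotentElem g := hg
    have h2 : g ^ (k + 1) = g := hi.pow_succ_eq k
    rw [h0, zero_pow hpos, map_zero, hk, h2] at h1
    exact h1
  have hε : MonoidAlgebra.lift F F V (1 : V →* F) f * MonoidAlgebra.lift F F V (1 : V →* F) f =
      MonoidAlgebra.lift F F V (1 : V →* F) f := by
    rw [← map_mul, hf]
  have hε' : IsIdempotentElem (MonoidAlgebra.lift F F V (1 : V →* F) f) := hε
  rcases (IsIdempotentElem.iff_eq_zero_or_one.1 hε') with h | h
  · exact Or.inl (key f hf h)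
  · right
    have h1 : (1 - f) * (1 - f) = 1 - f := by
      rw [mul_sub, sub_mul, sub_mul, hf]
      simp
    have h2 := key (1 - f) h1 (by rw [map_sub, map_one, h, sub_self])
    exact (sub_eq_zero.1 h2).symm

theorem jbk (hBrk : BrkStmt) : JbkStmt := by
  intro ℓ _ F V _ _ _ _ X j hV hBQ hj hjj hjn
  obtain ⟨β, s, h⟩ := hBQ
  have hbrk := hBrk ℓ F V X.A (IA.gr F V).A (cj F X.ι) (cj F (IA.gr F V).ι) ⊤ β s hV h.toBrS
  have h1f : (1 : X.A) ∈ Fx (cj F X.ι) ⊤ := by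
    intro u _
    show X.ι u * ((1 : X.A) * X.ι u⁻¹) = 1
    rw [one_mul, ← map_mul, mul_inv_cancel, map_one]
  have hβ1 : β 1 = 1 := by
    have h1 := h.cov 1
    rw [(X.ι).map_one, ((IA.gr F V).ι).map_one] at h1
    exact h1
  have hidem : β j * β j = β j := by
    rw [← h.mul j hj j hj, hjj]
  rcases idem_FV hV (β j) hidem with h0 | h0
  · exact absurd ((hbrk j hj).1 h0) hjn
  · rw [← hbrk (1 - j) (Submodule.sub_mem _ h1f hj), map_sub, hβ1]
    exact sub_eq_zero.2 h0.symm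

end

end Pool.Agent.PFC.B5c.H41
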