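import Pool.Agent.PFC.StmtsB2

namespace Pool.Agent.PFC.B2.H41

open Pool.Agent.PFC.B1 Pool.Agent.PFC.B2

noncomputable section

theorem nkh (hHrd : HrdStmt) (hHcr : HcrStmt) (hAnr : AnrStmt) (hAug : B3.AugStmt)
    (hCyc : B3.CycStmt) : NkhStmt := by
  intro ℓ _ F I E Λ _ _ _ _ _ _ _ _ a p i0 η P ha hη hE
  have hq : ∀ i, 2 ≤ ℓ ^ a i := by
    intro i
    have h1 : 2 ≤ ℓ := (Fact.out : ℓ.Prime).two_le
    calc 2 ≤ ℓ := h1
      _ = ℓ ^ 1 := (pow_one _).symm
      _ ≤ ℓ ^ a i := Nat.pow_le_pow_right (by omega) (ha i)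
  have hη' : ∀ i e, (B3.ηη (PowerSeries F) η i e) ^ (fun i => ℓ ^ a i) i =
      B3.ηη (PowerSeries F) η (p i) e := by
    intro i e
    show (Units.map (algebraMap F (PowerSeries F) : F →* PowerSeries F) (η i e)) ^ ℓ ^ a i =
      Units.map (algebraMap F (PowerSeries F) : F →* PowerSeries F) (η (p i) e)
    rw [← map_pow, hη]
  have hQ : 2 ≤ ∏ i ∈ Finset.univ.filter (fun i => p.SameCycle i0 i), ℓ ^ a i := by
    have hmem : i0 ∈ Finset.univ.filter (fun i => p.SameCycle i0 i) := by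
      rw [Finset.mem_filter]
      exact ⟨Finset.mem_univ _, Equiv.Perm.SameCycle.refl p i0⟩
    rw [← Finset.mul_prod_erase _ _ hmem]
    have h2 : 1 ≤ ∏ i ∈ (Finset.univ.filter (fun i => p.SameCycle i0 i)).erase i0, ℓ ^ a i :=
      Finset.prod_pos fun i _ => Nat.lt_of_lt_of_le Nat.zero_lt_two (hq i)
    calc 2 ≤ ℓ ^ a i0 := hq i0
      _ = ℓ ^ a i0 * 1 := (mul_one _).symm
      _ ≤ _ := Nat.mul_le_mul_left _ h2
  constructor
  · have hA : ∀ θ : E →* Fˣ, ∃ f : Λ →ₐ[PowerSeries F] PowerSeries F,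
        ∀ e, f (P.ε e) = PowerSeries.C (θ e : F) := by
      intro θ
      obtain ⟨f, -, hf⟩ := hAug (PowerSeries F) I E Λ _ _ _ _ P
        ((Units.map (algebraMap F (PowerSeries F) : F →* PowerSeries F)).comp θ) hq
      exact ⟨f, fun e => by rw [hf]; rfl⟩
    choose f hf using hA
    exact ⟨⟨P.ε, f, hf⟩⟩
  · obtain ⟨H, iR, iA, I', iF, v, p', P', j, s, hjs, hgen⟩ :=
      hHrd F I E Λ (fun i => ℓ ^ a i) p i0 (B3.ηη (PowerSeries F) η) P hq hη'
    refine ⟨H, iR, iA, ⟨?_⟩⟩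
    exact
      { Q := ∏ i ∈ Finset.univ.filter (fun i => p.SameCycle i0 i), ℓ ^ a i
        hQ := hQ
        x := P.j (MvPolynomial.X (p i0))
        xQ := (hCyc (PowerSeries F) I Λ (fun i => ℓ ^ a i) p PowerSeries.X i0
          (fun i => P.j (MvPolynomial.X i)) hq P.rel).2
        j := j
        s := s
        cm := hjs
        gen := hgen
        ann := hAnr F I E Λ (fun i => ℓ ^ a i) p i0 (B3.ηη (PowerSeries F) η) P hq hη'
        cr := fun L T _ _ _ _ _ _ τ U hU =>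
          hHcr ℓ F I' E H (fun i => a (v i)) p' (fun i => B3.ηη (PowerSeries F) η (v i)) P'
            (fun i => ha (v i)) hE L T τ U hU }

end

end Pool.Agent.PFC.B2.H41
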