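import Pool.Agent.PFC.StmtsB4b

namespace Pool.Agent.PFC.H41

noncomputable section

section

variable {F V A : Type} [Field F] [CommGroup V] [Ring A] [Algebra F A]

theorem cj_ap (α : V →* A) (u : V) (a : A) : cj F α u a = α u * (a * α u⁻¹) := rfl

theorem inv_mul' (α : V →* A) (u : V) : α u⁻¹ * α u = 1 := by
  rw [← map_mul, inv_mul_cancel, map_one]

theorem mem_cj (α : V →* A) (Q : Subgroup V) (a : A) :
    a ∈ Fx (cj F α) Q ↔ ∀ u ∈ Q, α u * a = a * α u := by
  constructor
  · intro h u hu
    have h1 : α u * (a * α u⁻¹) = a := h u hu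
    calc α u * a = α u * (a * (α u⁻¹ * α u)) := by rw [inv_mul', mul_one]
      _ = (α u * (a * α u⁻¹)) * α u := by simp only [mul_assoc]
      _ = _ := by rw [h1]
  · intro h u hu
    rw [cj_ap, ← mul_assoc, h u hu, mul_assoc, ← map_mul, mul_inv_cancel, map_one, mul_one]

theorem mul_Fx (α : V →* A) (Q : Subgroup V) {a b : A} (ha : a ∈ Fx (cj F α) Q)
    (hb : b ∈ Fx (cj F α) Q) : a * b ∈ Fx (cj F α) Q := by
  rw [mem_cj] at ha hb ⊢
  intro u hu
  rw [← mul_assoc, ha u hu, mul_assoc, hb u hu, mul_assoc]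

theorem one_Fx (α : V →* A) (Q : Subgroup V) : (1 : A) ∈ Fx (cj F α) Q := by
  rw [mem_cj]
  intro u _
  rw [mul_one, one_mul]

theorem io_Fx (α : V →* A) (Q : Subgroup V) (v : V) : α v ∈ Fx (cj F α) Q := by
  rw [mem_cj]
  intro u _
  rw [← map_mul, ← map_mul, mul_comm]

theorem mul_BK (α : V →* A) (Q : Subgroup V) {a z : A} (ha : a ∈ Fx (cj F α) Q)
    (hz : z ∈ BK (cj F α) Q) : a * z ∈ BK (cj F α) Q ∧ z * a ∈ BK (cj F α) Q := by
  have ha' := (mem_cj α Q a).1 ha
  unfold BK at hz
  induction hz using Submodule.span_induction with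
  | mem n hn =>
    obtain ⟨P', S, m, hlt, hS, hm, rfl⟩ := hn
    have haP : a ∈ Fx (cj F α) P' := fun h hh => ha h (hlt.le hh)
    constructor
    · refine Submodule.subset_span ⟨P', S, a * m, hlt, hS, mul_Fx α P' haP hm, ?_⟩
      rw [Finset.mul_sum]
      refine Finset.sum_congr rfl ?_
      intro x hx
      rw [cj_ap, cj_ap, ← mul_assoc, ← ha' x (hS.1 x hx)]
      simp only [mul_assoc]
    · refine Submodule.subset_span ⟨P', S, m * a, hlt, hS, mul_Fx α P' hm haP, ?_⟩
      rw [Finset.sum_mul]
      refine Finset.sum_congr rfl ?_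
      intro x hx
      have h1 := ha' x⁻¹ (Q.inv_mem (hS.1 x hx))
      rw [cj_ap, cj_ap, mul_assoc, mul_assoc, h1]
      simp only [mul_assoc]
  | zero =>
    rw [mul_zero, zero_mul]
    exact ⟨Submodule.zero_mem _, Submodule.zero_mem _⟩
  | add x y _ _ hx hy =>
    rw [mul_add, add_mul]
    exact ⟨Submodule.add_mem _ hx.1 hy.1, Submodule.add_mem _ hx.2 hy.2⟩
  | smul r x _ hx =>
    rw [mul_smul_comm, smul_mul_assoc]
    exact ⟨Submodule.smul_mem _ _ hx.1, Submodule.smul_mem _ _ hx.2⟩

end

theorem qal (hQsb : QsbStmt) (hQke : QkeStmt) : QalStmt := by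
  intro ℓ _ F V _ _ _ _ X hV hCP Q
  obtain ⟨N, iN, iM, ρ', β, s, h⟩ := hQsb ℓ F V X.A (cj F X.ι) hV hCP Q
  obtain ⟨hs, hk, hd⟩ := hQke ℓ F V X.A N (cj F X.ι) ρ' Q β s hV h
  -- multiplicativity
  have hmul : ∀ a ∈ Fx (cj F X.ι) Q, ∀ b ∈ Fx (cj F X.ι) Q,
      β (a * b) = β (s (β a) * s (β b)) := by
    intro a ha b hb
    have h1 : a * b - s (β a) * s (β b) ∈ BK (cj F X.ι) Q := by
      have e1 : a * b - s (β a) * s (β b) = (a - s (β a)) * b + s (β a) * (b - s (β b)) := by
        rw [sub_mul, mul_sub]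
        abel
      rw [e1]
      exact Submodule.add_mem _ (mul_BK X.ι Q hb (hd a ha)).2
        (mul_BK X.ι Q (hs (β a)) (hd b hb)).1
    have h2 : a * b - s (β a) * s (β b) ∈ Fx (cj F X.ι) Q :=
      Submodule.sub_mem _ (mul_Fx X.ι Q ha hb) (mul_Fx X.ι Q (hs _) (hs _))
    have h3 := (hk _ h2).2 h1
    rw [map_sub] at h3
    exact sub_eq_zero.1 h3
  let rg : Ring N :=
    { iN with
      mul := fun n n' => β (s n * s n')
      one := β 1
      zero_mul := by
        intro n
        show β (s 0 * s n) = 0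
        rw [map_zero, zero_mul, map_zero]
      mul_zero := by
        intro n
        show β (s n * s 0) = 0
        rw [map_zero, mul_zero, map_zero]
      left_distrib := by
        intro a b c
        show β (s a * s (b + c)) = β (s a * s b) + β (s a * s c)
        rw [map_add, mul_add, map_add]
      right_distrib := by
        intro a b c
        show β (s (a + b) * s c) = β (s a * s c) + β (s b * s c)
        rw [map_add, add_mul, map_add]
      mul_assoc := by
        intro a b c
        show β (s (β (s a * s b)) * s c) = β (s a * s (β (s b * s c)))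
        have h1 := hmul (s a * s b) (mul_Fx X.ι Q (hs a) (hs b)) (s c) (hs c)
        have h2 := hmul (s a) (hs a) (s b * s c) (mul_Fx X.ι Q (hs b) (hs c))
        rw [h.bs] at h1 h2
        rw [← h1, ← h2, mul_assoc]
      one_mul := by
        intro a
        show β (s (β 1) * s a) = a
        have h1 := hmul 1 (one_Fx X.ι Q) (s a) (hs a)
        rw [h.bs] at h1
        rw [← h1, one_mul, h.bs]
      mul_one := by
        intro a
        show β (s a * s (β 1)) = a
        have h1 := hmul (s a) (hs a) 1 (one_Fx X.ι Q)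
        rw [h.bs] at h1
        rw [← h1, mul_one, h.bs] }
  let al : Algebra F N := Algebra.ofModule
    (by
      intro r x y
      show β (s (r • x) * s y) = r • β (s x * s y)
      rw [map_smul, smul_mul_assoc, map_smul])
    (by
      intro r x y
      show β (s x * s (r • y)) = r • β (s x * s y)
      rw [map_smul, mul_smul_comm, map_smul])
  have hfin : @Module.Finite F N _ _ (@Algebra.toModule F N _ _ al) := by
    have h1 : Module.Finite F N := Module.Finite.of_surjective β (fun n => ⟨s n, h.bs n⟩)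
    exact h1
  let Y : IA F V :=
    { A := N
      rg := rg
      al := al
      fi := hfin
      ι :=
        { toFun := fun v => β (X.ι v)
          map_one' := by
            rw [map_one]
            rfl
          map_mul' := by
            intro u v
            rw [map_mul]
            exact hmul (X.ι u) (io_Fx X.ι Q u) (X.ι v) (io_Fx X.ι Q v) } }
  have hY : ∀ (v : V) (n : N), cj F Y.ι v n = ρ' v n := by
    intro v n
    show β (s (β (X.ι v)) * s (β (s n * s (β (X.ι v⁻¹))))) = ρ' v n
    have h1 := hmul (s n) (hs n) (X.ι v⁻¹) (io_Fx X.ι Q v⁻¹)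
    rw [h.bs] at h1
    rw [← h1]
    have h2 := hmul (X.ι v) (io_Fx X.ι Q v) (s n * X.ι v⁻¹)
      (mul_Fx X.ι Q (hs n) (io_Fx X.ι Q v⁻¹))
    rw [← h2]
    have h3 := h.eb v (s n)
    rw [h.bs] at h3
    exact h3
  refine ⟨Y, { toFun := β, map_add' := β.map_add, map_smul' := β.map_smul },
    { toFun := s, map_add' := s.map_add, map_smul' := s.map_smul }, ⟨⟨?_, ?_, ?_, ?_, ?_⟩, ?_, ?_⟩⟩
  · intro n
    exact h.bs n
  · intro v m
    show β (cj F X.ι v m) = cj F Y.ι v (β m)
    rw [hY, h.eb]
  · intro v n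
    show s (cj F Y.ι v n) = cj F X.ι v (s n)
    rw [hY, h.es]
  · intro q hq n
    rw [hY]
    exact h.tr q hq n
  · exact h.hg
  · intro a ha b hb
    exact hmul a ha b hb
  · intro v
    rfl

end

end Pool.Agent.PFC.H41
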