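import Pool.Agent.PFC.StmtsB4b

open scoped TensorProduct

namespace Pool.Agent.PFC.H41

noncomputable section

theorem tmul_inj {F A B : Type} [Field F] [AddCommGroup A] [Module F A] [AddCommGroup B]
    [Module F B] {a : A} (ha : a ≠ 0) {b : B} (h : a ⊗ₜ[F] b = 0) : b = 0 := by
  obtain ⟨f, hf⟩ := Module.Projective.exists_dual_ne_zero F ha
  have h1 := congrArg ((TensorProduct.lid F B) ∘ (LinearMap.rTensor B f)) h
  simp only [Function.comp_apply, LinearMap.rTensor_tmul, TensorProduct.lid_tmul, map_zero] at h1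
  exact (smul_eq_zero.1 h1).resolve_left hf

theorem qzs (hQlb : QlbStmt) (hQlw : QlwStmt) (hQlu : QluStmt) (hQcb : QcbStmt) : QzsStmt := by
  intro ℓ _ F V _ _ _ _ X X' W R b j κ hV hCP hChr hLoc hCor hBQ hRet hBQW
  obtain ⟨β, s, hABr⟩ := hBQ
  obtain ⟨c, hc, -, hLb⟩ := hQlb ℓ F V X (W.tens (IA.gr F V)) R b j β s hV hCP hChr hLoc hABr
  obtain ⟨π, hπ2, hπ0, hvπ, hπv, hπa⟩ := hRet
  have hLw := hQlw ℓ F V W c π hV hBQW hc hπ2 hπ0 hvπ hπv hπa
  obtain ⟨u, huv, huj⟩ := hQlu F V (W.tens (IA.gr F V)) c _ (β j) hc hLw hLb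
  let e : W.A ⊗[F] MonoidAlgebra F V := π ⊗ₜ[F] (1 : MonoidAlgebra F V)
  let U : W.A ⊗[F] MonoidAlgebra F V := ((u : (W.tens (IA.gr F V)).Aˣ) : (W.tens (IA.gr F V)).A)
  let U' : W.A ⊗[F] MonoidAlgebra F V :=
    ((u⁻¹ : (W.tens (IA.gr F V)).Aˣ) : (W.tens (IA.gr F V)).A)
  let bj : W.A ⊗[F] MonoidAlgebra F V := β j
  have hUU' : U * U' = 1 := u.mul_inv
  have hU'U : U' * U = 1 := u.inv_mul
  have hUe : U * e = bj * U := huj
  have hbj : bj = U * e * U' := by rw [hUe, mul_assoc, hUU', mul_one]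
  have hιv : ∀ v : V, U * (W.ι v ⊗ₜ[F] MonoidAlgebra.of F V v) =
      (W.ι v ⊗ₜ[F] MonoidAlgebra.of F V v) * U := fun v => huv v
  let κy : MonoidAlgebra F V →ₗ[F] (W.A ⊗[F] MonoidAlgebra F V) :=
    (LinearMap.mulLeft F U).comp ((LinearMap.mulRight F U').comp
      (TensorProduct.mk F W.A (MonoidAlgebra F V) π))
  have hκ : ∀ y : MonoidAlgebra F V, κy y = U * ((π ⊗ₜ[F] y) * U') := fun _ => rfl
  have hκ' : ∀ y : MonoidAlgebra F V, U' * κy y * U = π ⊗ₜ[F] y := by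
    intro y
    rw [hκ]
    calc U' * (U * ((π ⊗ₜ[F] y) * U')) * U = (U' * U) * (π ⊗ₜ[F] y) * (U' * U) := by
          simp only [mul_assoc]
      _ = _ := by rw [hU'U, one_mul, mul_one]
  have hinj : ∀ y y' : MonoidAlgebra F V, κy y = κy y' → y = y' := by
    intro y y' h0
    have h1 : (π ⊗ₜ[F] y : W.A ⊗[F] MonoidAlgebra F V) = π ⊗ₜ[F] y' := by
      rw [← hκ' y, ← hκ' y', h0]
    have h2 : (π ⊗ₜ[F] (y - y') : W.A ⊗[F] MonoidAlgebra F V) = 0 := by
      rw [TensorProduct.tmul_sub, h1, sub_self]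
    exact sub_eq_zero.1 (tmul_inj hπ0 h2)
  have hmul : ∀ y y' : MonoidAlgebra F V, κy (y * y') = κy y * κy y' := by
      intro y y'
      rw [hκ, hκ, hκ]
      have h1 : (π ⊗ₜ[F] (y * y') : W.A ⊗[F] MonoidAlgebra F V) =
          (π ⊗ₜ[F] y) * (π ⊗ₜ[F] y') := by
        rw [Algebra.TensorProduct.tmul_mul_tmul, hπ2]
      rw [h1]
      calc U * ((π ⊗ₜ[F] y) * (π ⊗ₜ[F] y') * U')
          = U * ((π ⊗ₜ[F] y) * 1 * (π ⊗ₜ[F] y') * U') := by rw [mul_one]
        _ = U * ((π ⊗ₜ[F] y) * (U' * U) * (π ⊗ₜ[F] y') * U') := by rw [hU'U]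
        _ = _ := by simp only [mul_assoc]
  have hcor : Cor (W.tens (IA.gr F V)) (IA.gr F V) (β j) κy := by
    refine ⟨?_, ?_, ?_, ?_, ?_, ?_⟩
    · intro y y' h
      exact hinj y y' h
    · intro y y'
      exact hmul y y'
    · show κy 1 = bj
      rw [hκ, hbj, ← mul_assoc]
    · intro a ha1 ha2
      let a0 : W.A ⊗[F] MonoidAlgebra F V := a
      have h1 : bj * a0 = a0 := ha1
      have h2 : a0 * bj = a0 := ha2
      have h3 : ∀ t : W.A ⊗[F] MonoidAlgebra F V, ∃ y : MonoidAlgebra F V,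
          e * t * e = π ⊗ₜ[F] y := by
        intro t
        induction t using TensorProduct.induction_on with
        | zero => exact ⟨0, by rw [mul_zero, zero_mul, TensorProduct.tmul_zero]⟩
        | tmul w y =>
          obtain ⟨r, hr⟩ := hπa w
          refine ⟨r • y, ?_⟩
          show (π ⊗ₜ[F] (1 : MonoidAlgebra F V)) * (w ⊗ₜ[F] y) *
            (π ⊗ₜ[F] (1 : MonoidAlgebra F V)) = _
          rw [Algebra.TensorProduct.tmul_mul_tmul, Algebra.TensorProduct.tmul_mul_tmul, hr,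
            one_mul, mul_one, TensorProduct.smul_tmul]
        | add x y hx hy =>
          obtain ⟨p, hp⟩ := hx
          obtain ⟨q, hq⟩ := hy
          exact ⟨p + q, by rw [mul_add, add_mul, hp, hq, TensorProduct.tmul_add]⟩
      obtain ⟨y, hy⟩ := h3 (U' * a0 * U)
      refine ⟨y, ?_⟩
      show κy y = a0
      rw [hκ, ← hy]
      calc U * (e * (U' * a0 * U) * e * U')
          = (U * e * U') * a0 * (U * e * U') := by simp only [mul_assoc]
        _ = a0 := by rw [← hbj, h1, h2]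
    · intro v
      have h1 := hLb.fx v trivial
      have h2 : (W.tens (IA.gr F V)).ι v * (β j * (W.tens (IA.gr F V)).ι v⁻¹) = β j := h1
      calc (W.tens (IA.gr F V)).ι v * β j
          = (W.tens (IA.gr F V)).ι v * β j * ((W.tens (IA.gr F V)).ι v⁻¹ *
              (W.tens (IA.gr F V)).ι v) := by
            rw [← ((W.tens (IA.gr F V)).ι).map_mul, inv_mul_cancel,
              ((W.tens (IA.gr F V)).ι).map_one, mul_one]
        _ = ((W.tens (IA.gr F V)).ι v * (β j * (W.tens (IA.gr F V)).ι v⁻¹)) *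
              (W.tens (IA.gr F V)).ι v := by simp only [mul_assoc]
        _ = _ := by rw [h2]
    · intro v
      show κy (MonoidAlgebra.of F V v) = (W.ι v ⊗ₜ[F] MonoidAlgebra.of F V v) * bj
      rw [hκ, hbj, ← mul_assoc, ← mul_assoc, ← mul_assoc, ← hιv]
      have h1 : (W.ι v ⊗ₜ[F] MonoidAlgebra.of F V v : W.A ⊗[F] MonoidAlgebra F V) * e =
          π ⊗ₜ[F] MonoidAlgebra.of F V v := by
        show (W.ι v ⊗ₜ[F] MonoidAlgebra.of F V v) * (π ⊗ₜ[F] (1 : MonoidAlgebra F V)) = _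
        rw [Algebra.TensorProduct.tmul_mul_tmul, hvπ, mul_one]
      rw [mul_assoc U _ e, h1]
  obtain ⟨β', s', h', -⟩ := hQcb ℓ F V X (W.tens (IA.gr F V)) X' (IA.gr F V) R β s j κ κy hV
    hABr hCor hcor
  exact ⟨β', s', h'⟩

end

end Pool.Agent.PFC.H41
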